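import Mathlib
import Pool.Agent.X218.HU.Cover

/-!
# MP_e9e8de_lc, Q1 and Q2 (negated forms)

Equality of coded open sets of a second countable space is either not Borel or `Π⁰₂`.
-/

open Set Filter Topology MeasureTheory

namespace Pool.Agent.Results.MP_e9e8de_lc.BorelImpliesGdelta

/-- The open set `O_x = ⋃ n, U (x n)` coded by `x : ℕ → ℕ`. -/
def codedOpen {X : Type*} (U : ℕ → Set X) (x : ℕ → ℕ) : Set X := ⋃ n, U (x n)

/-- The relation `x E y ↔ O_x = O_y`, as a subset of the product of two copies of Baire space. -/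
def eqCoded {X : Type*} (U : ℕ → Set X) : Set ((ℕ → ℕ) × (ℕ → ℕ)) :=
  {p | codedOpen U p.1 = codedOpen U p.2}

/-- **MP_e9e8de_lc, Q1 and Q2 (negated forms).** Let `X` be any topological space (no separation
axiom is needed) with a basis enumerated as `U 0, U 1, …`. If the equality of coded open sets is a
Borel subset of the product of two copies of Baire space, then it is a `Gδ` (i.e. `Π⁰₂`) set. -/
theorem result {X : Type*} [TopologicalSpace X] (U : ℕ → Set X)
    (hU : TopologicalSpace.IsTopologicalBasis (range U))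
    (hE : @MeasurableSet ((ℕ → ℕ) × (ℕ → ℕ)) (borel ((ℕ → ℕ) × (ℕ → ℕ))) (eqCoded U)) :
    IsGδ (eqCoded U) := by
  have hE' : MeasurableSet (eqCoded U) := by
    rwa [BorelSpace.measurable_eq (α := (ℕ → ℕ) × (ℕ → ℕ))]
  -- the covering conditions are Borel
  have hB : ∀ k, MeasurableSet (Pool.Agent.X218.HU.Cov U k) := by
    intro k
    let c : (ℕ → ℕ) → (ℕ → ℕ) × (ℕ → ℕ) := fun y => (fun n => Nat.casesOn n k y, y)
    have hc : Continuous c := by
      refine Continuous.prodMk (continuous_pi fun n => ?_) continuous_id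
      cases n with
      | zero => exact continuous_const
      | succ n => exact continuous_apply n
    have h1 : Pool.Agent.X218.HU.Cov U k = c ⁻¹' (eqCoded U) := by
      ext y
      have h2 : codedOpen U (fun n => Nat.casesOn n k y) = U k ∪ codedOpen U y := by
        ext p
        simp only [codedOpen, mem_iUnion, mem_union]
        constructor
        · rintro ⟨n, hn⟩
          cases n with
          | zero => exact Or.inl hn
          | succ n => exact Or.inr ⟨n, hn⟩
        · rintro (h | ⟨n, hn⟩)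
          · exact ⟨0, h⟩
          · exact ⟨n + 1, hn⟩
      show U k ⊆ codedOpen U y ↔ codedOpen U (fun n => Nat.casesOn n k y) = codedOpen U y
      rw [h2, union_eq_right]
    rw [h1]
    exact hc.measurable hE'
  have hG : ∀ k, IsGδ (Pool.Agent.X218.HU.Cov U k) := fun k =>
    Pool.Agent.X218.HU.isGδ_of_borel hU k (hB k)
  have hpre : ∀ {Z Y : Type} [TopologicalSpace Z] [TopologicalSpace Y] (g : Z → Y)
      (_ : Continuous g) (s : Set Y), IsGδ s → IsGδ (g ⁻¹' s) := by
    intro Z Y _ _ g hg s hs
    exact hs.preimage hg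
  have hset : eqCoded U = (⋂ n : ℕ, ⋂ k : ℕ, ({p : (ℕ → ℕ) × (ℕ → ℕ) | p.1 n ≠ k} ∪
        Prod.snd ⁻¹' (Pool.Agent.X218.HU.Cov U k))) ∩
      (⋂ n : ℕ, ⋂ k : ℕ, ({p : (ℕ → ℕ) × (ℕ → ℕ) | p.2 n ≠ k} ∪
        Prod.fst ⁻¹' (Pool.Agent.X218.HU.Cov U k))) := by
    ext ⟨x, y⟩
    simp only [mem_inter_iff, mem_iInter, mem_union, mem_preimage, mem_setOf_eq]
    constructor
    · intro h
      have h' : (⋃ n, U (x n)) = ⋃ n, U (y n) := h
      refine ⟨fun n k => ?_, fun n k => ?_⟩
      · by_cases hk : x n = k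
        · right
          subst hk
          show U (x n) ⊆ ⋃ n, U (y n)
          rw [← h']
          exact subset_iUnion (fun n => U (x n)) n
        · exact Or.inl hk
      · by_cases hk : y n = k
        · right
          subst hk
          show U (y n) ⊆ ⋃ n, U (x n)
          rw [h']
          exact subset_iUnion (fun n => U (y n)) n
        · exact Or.inl hk
    · rintro ⟨h1, h2⟩
      refine subset_antisymm (iUnion_subset fun n => ?_) (iUnion_subset fun n => ?_)
      · rcases h1 n (x n) with h | h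
        · exact absurd rfl h
        · exact h
      · rcases h2 n (y n) with h | h
        · exact absurd rfl h
        · exact h
  rw [hset]
  refine IsGδ.inter (IsGδ.iInter fun n => IsGδ.iInter fun k => IsGδ.union ?_ ?_)
    (IsGδ.iInter fun n => IsGδ.iInter fun k => IsGδ.union ?_ ?_)
  · have : {p : (ℕ → ℕ) × (ℕ → ℕ) | p.1 n ≠ k} = (fun p : (ℕ → ℕ) × (ℕ → ℕ) => p.1 n) ⁻¹' {k}ᶜ := rfl
    rw [this]
    exact ((isOpen_discrete _).preimage ((continuous_apply n).comp continuous_fst)).isGδ
  · exact hpre _ continuous_snd _ (hG k)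
  · have : {p : (ℕ → ℕ) × (ℕ → ℕ) | p.2 n ≠ k} = (fun p : (ℕ → ℕ) × (ℕ → ℕ) => p.2 n) ⁻¹' {k}ᶜ := rfl
    rw [this]
    exact ((isOpen_discrete _).preimage ((continuous_apply n).comp continuous_snd)).isGδ
  · exact hpre _ continuous_fst _ (hG k)

end Pool.Agent.Results.MP_e9e8de_lc.BorelImpliesGdelta
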